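import Mathlib
import Pool.Agent.Lib.MP_0f105f_co.Defs
import Pool.Agent.Lib.MP_0f105f_co.KDefs
import Pool.Agent.Lib.MP_0f105f_co.KMain

set_option autoImplicit false

namespace Pool.Agent.Results.MP_0f105f_co.KernelRings

open Pool.Agent.Lib.MP_0f105f_co

/-- A ring `R` is (isomorphic to) the kernel of some translation generalized quadrangle if and
only if there is a ring homomorphism from `R` to a nonzero ring sending every nonzero element of
`R` to a unit. -/
theorem result (R : Type) [Ring R] :
    (∃ (S : Geometry) (x : S.Point) (G : Subgroup S.Aut) (y : S.Point),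
      S.IsTGQ x G ∧ ¬ S.Collinear x y ∧ IsoToRing R (S.kernel x y G)) ↔
    ∃ (U : Type) (_ : Ring U) (f : R →+* U), Nontrivial U ∧ ∀ r : R, r ≠ 0 → IsUnit (f r) := by
  constructor
  · rintro ⟨S, x, G, y, hT, hy, h⟩
    exact necessary hT hy h
  · rintro ⟨U, _, f, _, hf⟩
    exact sufficient f hf

end Pool.Agent.Results.MP_0f105f_co.KernelRings
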